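import Pool.Agent.Z15.S.Pen

/-!
# Auxiliary lemmas on coefficients and lines (helper59)
-/

set_option autoImplicit false
set_option linter.all false

open FF MvPolynomial Pool.Agent.Z15.H Pool.Agent.Z15.J Pool.Agent.Z15.J.Stm

namespace Pool.Agent.T2h59.Z15

open Pool.Agent.Z15.S
open Pool.Agent.T2h62.H15 (reg_sub exists_prim li_iff li_of_minor exists_minor)

section

variable {K : Type} [Field K] {ι : Type}

theorem Vanish.symm {F : MvPolynomial ι K} {E : Type} [Field E] [Algebra K E] {a b : ι → E}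
    (h : Vanish F a b) : Vanish F b a := by
  intro M _ _ _ _ α β
  rw [← h M β α]
  congr 2
  funext i
  ring

theorem Vanish.left {F : MvPolynomial ι K} {E : Type} [Field E] [Algebra K E] {a b : ι → E}
    (h : Vanish F a b) : aeval a F = 0 := by
  rw [← h E 1 0]
  congr 2
  funext i
  simp

theorem Vanish.right {F : MvPolynomial ι K} {E : Type} [Field E] [Algebra K E] {a b : ι → E}
    (h : Vanish F a b) : aeval b F = 0 := by
  rw [← h E 0 1]
  congr 2
  funext i
  simp

/-- the cycle of a family of lines over an infinite algebraic extension is zero -/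
theorem fin_or_zero [CharZero K] [Fintype ι] (hCYC : T_CYC2) {κ : Type} [Field κ] [Algebra K κ]
    (htr : Algebra.trdeg K κ = 0) (z u : ι → κ) : FiniteDimensional K κ ∨ cyc K (gen z u) = 0 := by
  have halg : Algebra.IsAlgebraic K κ := by rw [← trdeg_eq_zero_iff, htr]
  set E := IntermediateField.adjoin K (Set.range z ∪ Set.range u) with hE
  have hfin : FiniteDimensional K E := IntermediateField.finiteDimensional_adjoin
    (fun x _ => (halg.isAlgebraic x).isIntegral)
  have hz : ∀ i, z i ∈ E := fun i => IntermediateField.subset_adjoin _ _ (Or.inl ⟨i, rfl⟩)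
  have hu : ∀ i, u i ∈ E := fun i => IntermediateField.subset_adjoin _ _ (Or.inr ⟨i, rfl⟩)
  by_cases h : FiniteDimensional E κ
  · left
    exact FiniteDimensional.trans K E κ
  · right
    have h1 := (hCYC K ι E).2.2.2.2.1 κ (fun i => ⟨z i, hz i⟩) (fun i => ⟨u i, hu i⟩)
    have h2 : Module.finrank E κ = 0 := Module.finrank_of_not_finite h
    rw [h2, zero_smul] at h1
    exact h1

theorem isFG0 {κ : Type} [Field κ] [Algebra K κ] [FiniteDimensional K κ] : IsFG 0 K κ := by
  refine ⟨inferInstance, ?_⟩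
  have : Algebra.IsAlgebraic K κ := inferInstance
  rw [trdeg_eq_zero, Nat.cast_zero]

theorem li_of_supp {κ : Type} [Field κ] {X Y : Finset ι} (hXY : Disjoint X Y) {z u : ι → κ}
    (hz : Supp X z) (hu : Supp Y u) (hz0 : z ≠ 0) (hu0 : u ≠ 0) : LinearIndependent κ ![z, u] := by
  rw [li_iff]
  intro α β h
  obtain ⟨i, hi⟩ : ∃ i, z i ≠ 0 := by
    by_contra h
    push Not at h
    exact hz0 (funext h)
  obtain ⟨j, hj⟩ : ∃ j, u j ≠ 0 := by
    by_contra h
    push Not at h
    exact hu0 (funext h)
  have hiX : i ∈ X := by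
    by_contra h
    exact hi (hz i h)
  have hjY : j ∈ Y := by
    by_contra h
    exact hj (hu j h)
  have hui : u i = 0 := hu i (Finset.disjoint_left.1 hXY hiX)
  have hzj : z j = 0 := hz j (Finset.disjoint_right.1 hXY hjY)
  have h1 := congrFun h i
  have h2 := congrFun h j
  simp only [Pi.add_apply, Pi.smul_apply, smul_eq_mul, Pi.zero_apply, hui, mul_zero, add_zero] at h1
  simp only [Pi.add_apply, Pi.smul_apply, smul_eq_mul, Pi.zero_apply, hzj, mul_zero, zero_add] at h2
  exact ⟨(mul_eq_zero.1 h1).resolve_right hi, (mul_eq_zero.1 h2).resolve_right hj⟩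

theorem li_symm {κ : Type} [Field κ] {a b : ι → κ} (h : LinearIndependent κ ![a, b]) :
    LinearIndependent κ ![b, a] := by
  rw [li_iff] at h ⊢
  intro α β h0
  have := h β α (by rw [add_comm]; exact h0)
  exact ⟨this.2, this.1⟩

theorem gen_symm [CharZero K] [Fintype ι] (hCYC : T_CYC2) {κ : Type} [Field κ] [Algebra K κ] {a b : ι → κ}
    (h : LinearIndependent κ ![a, b]) : cyc K (gen b a) = cyc K (gen a b) :=
  (hCYC K ι κ).2.2.2.2.2.2.1 a b b a h (li_symm h) (Submodule.subset_span (by simp))
    (Submodule.subset_span (by simp))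

/-- the linear map given by the coordinate vectors -/
theorem lm_single [DecidableEq ι] {K1 κ : Type} [Field K1] [Field κ] [Algebra K1 κ] (X : Finset ι)
    (e : {i // i ∈ X} → κ) :
    lm (fun n : {i // i ∈ X} => (Pi.single (n : ι) (1 : K1) : ι → K1)) e =
      fun i => if h : i ∈ X then e ⟨i, h⟩ else 0 := by
  funext i
  unfold lm
  by_cases h : i ∈ X
  · rw [dif_pos h, Finset.sum_eq_single (⟨i, h⟩ : {i // i ∈ X})]
    · simp
    · intro n _ hn
      have : i ≠ (n : ι) := fun hh => hn (Subtype.ext hh.symm)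
      simp [Pi.single_apply, this]
    · intro hh
      exact absurd (Finset.mem_univ _) hh
  · rw [dif_neg h]
    apply Finset.sum_eq_zero
    intro n _
    have : i ≠ (n : ι) := fun hh => h (hh ▸ n.2)
    simp [Pi.single_apply, this]

theorem lm_supp [DecidableEq ι] {K1 κ : Type} [Field K1] [Field κ] [Algebra K1 κ] (X : Finset ι)
    (e : {i // i ∈ X} → κ) :
    Supp X (lm (fun n : {i // i ∈ X} => (Pi.single (n : ι) (1 : K1) : ι → K1)) e) := by
  intro i hi
  rw [lm_single]
  simp [hi]

theorem lm_ne [DecidableEq ι] {K1 κ : Type} [Field K1] [Field κ] [Algebra K1 κ] (X : Finset ι)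
    {e : {i // i ∈ X} → κ} (he : e ≠ 0) :
    lm (fun n : {i // i ∈ X} => (Pi.single (n : ι) (1 : K1) : ι → K1)) e ≠ 0 := by
  intro h
  apply he
  funext i
  have := congrFun h i
  rw [lm_single] at this
  simpa using this

theorem lm_restrict [DecidableEq ι] {K1 κ : Type} [Field K1] [Field κ] [Algebra K1 κ] (X : Finset ι)
    {w : ι → κ} (hw : Supp X w) :
    lm (fun n : {i // i ∈ X} => (Pi.single (n : ι) (1 : K1) : ι → K1)) (fun n => w n) = w := by
  rw [lm_single]
  funext i
  by_cases h : i ∈ X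
  · rw [dif_pos h]
  · rw [dif_neg h, hw i h]

/-- the conditions for a line through a vector `U` with support in `Y` and a vector `W` with support in
`X` -/
theorem vanish_of_co (hCO : S_CO) (hMIX : S_MIX) [CharZero K] [Fintype ι] {F : MvPolynomial ι K}
    {d m : ℕ} {X Y : Finset ι} (hF : F.IsHomogeneous d) (hXY : Disjoint X Y) (hM : Mix F X Y m)
    {E : Type} [Field E] [Algebra K E] {U W : ι → E} (hU : Supp Y U) (hW : Supp X W)
    (h0 : aeval U F = 0) (h1 : ∀ j, 0 < j → j ≤ m → co F U W j = 0) (h2 : co F U W d = 0) :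
    Vanish F U W := by
  obtain ⟨-, c2, c3, -, c5, -⟩ := hCO K ι F d hF
  rw [c2]
  intro j hj
  rcases Nat.eq_zero_or_pos j with rfl | hj0
  · rw [(c3 E _ _).1, h0]
  by_cases hjm : j ≤ m
  · exact h1 j hj0 hjm
  rcases lt_or_eq_of_le hj with hjd | rfl
  swap
  · exact h2
  have e1 := (c5 E U W 1 j hj).2.2
  rw [← e1]
  have e2 := hMIX K ι F d m X Y hF hXY hM E W 0 U hW hU (d - j) (by omega)
  have e3 : (fun i => (0 : ι → E) i + U i) = U := by funext i; simp
  rw [e3] at e2
  rw [e2]
  have e4 := (c5 E W 0 0 (d - j) (by omega)).1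
  have e5 : (fun i => (0 : E) * (0 : ι → E) i) = 0 := by funext i; simp
  rw [e5, zero_pow (by omega), zero_mul] at e4
  exact e4

end

end Pool.Agent.T2h59.Z15
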