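import Pool.Agent.Z15.S.Stm

/-!
# The coefficients of a form with few mixed monomials (helper59)
-/

set_option autoImplicit false
set_option linter.all false

open FF MvPolynomial Pool.Agent.Z15.H Pool.Agent.Z15.J Pool.Agent.Z15.J.Stm

namespace Pool.Agent.T2h59.Z15

open Pool.Agent.Z15.S

lemma co_sum {k A ι : Type} [Field k] [CommRing A] [Algebra k A] [Fintype ι] (F : MvPolynomial ι k)
    (P w : ι → A) (j : ℕ) : co F P w j = ∑ s ∈ F.support, algebraMap k A (F.coeff s) *
      (∏ i, (Polynomial.C (P i) + Polynomial.X * Polynomial.C (w i)) ^ (s i)).coeff j := by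
  unfold co
  rw [aeval_def, eval₂_eq', Polynomial.finset_sum_coeff]
  refine Finset.sum_congr rfl fun s _ => ?_
  rw [Polynomial.algebraMap_apply, Polynomial.coeff_C_mul]

theorem t_S_MIX : S_MIX := by
  intro k _ ι _ F d m X Y hF hXY hM A _ _ z B y hz hy j hj
  classical
  rw [co_sum, co_sum]
  refine Finset.sum_congr rfl fun s hs => ?_
  congr 1
  by_cases hc : ∃ i ∈ Y, s i ≠ 0
  · have hm := hM s hs hc
    have hdeg : ∑ i, s i = d := by
      have h1 := hF (mem_support_iff.1 hs)
      rw [← h1]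
      have h2 : (Finsupp.weight (1 : ι → ℕ)) s = s.degree :=
        (congrFun (congrArg DFunLike.coe (Finsupp.degree_eq_weight_one (R := ℕ) (σ := ι))) s).symm
      rw [h2, Finsupp.degree_eq_sum]
    have hsplit : ∑ i ∈ X, s i + ∑ i ∈ Finset.univ \ X, s i = d := by
      rw [← hdeg, add_comm]
      exact Finset.sum_sdiff (Finset.subset_univ X)
    have hdvd : ∀ w : ι → A, (Polynomial.X : Polynomial A) ^ (∑ i ∈ Finset.univ \ X, s i) ∣
        ∏ i, (Polynomial.C (z i) + Polynomial.X * Polynomial.C (w i)) ^ (s i) := by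
      intro w
      rw [← Finset.prod_sdiff (Finset.subset_univ X)]
      refine Dvd.dvd.mul_right ?_ _
      rw [← Finset.prod_pow_eq_pow_sum]
      refine Finset.prod_dvd_prod_of_dvd _ _ fun i hi => ?_
      rw [Finset.mem_sdiff] at hi
      rw [hz i hi.2, Polynomial.C_0, zero_add]
      exact pow_dvd_pow_of_dvd (Dvd.intro _ rfl) _
    have hlt : j < ∑ i ∈ Finset.univ \ X, s i := by omega
    rw [Polynomial.X_pow_dvd_iff.1 (hdvd _) j hlt, Polynomial.X_pow_dvd_iff.1 (hdvd _) j hlt]
  · push Not at hc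
    congr 1
    refine Finset.prod_congr rfl fun i _ => ?_
    by_cases hi : i ∈ Y
    · rw [hc i hi, pow_zero, pow_zero]
    · rw [hy i hi, add_zero]

end Pool.Agent.T2h59.Z15
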