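import Pool.Agent.T2h59.Z15.Lin
import Pool.Agent.T2h62.J15.SBi

/-!
# It suffices to consider lines through points of `X` (helper59)
-/

set_option autoImplicit false
set_option linter.all false

open FF MvPolynomial Pool.Agent.Z15.H Pool.Agent.Z15.J Pool.Agent.Z15.J.Stm

namespace Pool.Agent.T2h59.Z15

open Pool.Agent.Z15.S
open Pool.Agent.T2h62.J15 (exists_second lim_mem lim_vanish)
open Pool.Agent.T2h62.H15 (reg_sub exists_prim li_iff li_of_minor exists_minor)

theorem lim_supp {K : Type} [Field K] {ι : Type} [Finite ι] {X : Finset ι} {E : Type} [Field E] [Algebra K E]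
    {t : Place K E} {A B : ι → E} {a b : ι → t.RF} (hlim : IsLim t A B a b) {z : ι → E} (hz : z ≠ 0)
    (hX : Supp X z) {c c' : E} (hc : ∀ i, c * A i + c' * B i = z i) :
    ∃ (z0 : ι → t.RF) (v : ι → t.RF), z0 ≠ 0 ∧ Supp X z0 ∧ z0 ∈ Submodule.span t.RF {a, b} ∧
      v ∈ Submodule.span t.RF {a, b} ∧ LinearIndependent t.RF ![z0, v] := by
  obtain ⟨j, hj, hr⟩ := exists_prim t hz
  have hz0 : (fun a => t.red ((z j)⁻¹ * z a)) ≠ 0 := by
    intro h
    have h1 := congrFun h j
    simp only [inv_mul_cancel₀ hj, t.red_one, Pi.zero_apply] at h1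
    exact one_ne_zero h1
  have hmem : (fun a => t.red ((z j)⁻¹ * z a)) ∈ Submodule.span t.RF {a, b} := by
    refine lim_mem (c := (z j)⁻¹ * c) (c' := (z j)⁻¹ * c') hlim (fun i => ?_)
    have h1 : (z j)⁻¹ * c * A i + (z j)⁻¹ * c' * B i = (z j)⁻¹ * z i := by
      rw [← hc i]
      ring
    rw [h1]
    exact ⟨hr i, rfl⟩
  obtain ⟨v, hv, hwv⟩ := exists_second hlim.1 hz0
  refine ⟨_, v, hz0, ?_, hmem, hv, hwv⟩
  intro i hi
  simp only
  rw [hX i hi, mul_zero, t.red_zero]

theorem mix_map {k K ι : Type} [Field k] [Field K] [Algebra k K] {F : MvPolynomial ι k} {X Y : Finset ι} {m : ℕ}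
    (h : Mix F X Y m) : Mix (map (algebraMap k K) F) X Y m := by
  intro s hs hY
  exact h s (MvPolynomial.support_map_subset _ _ hs) hY

theorem t_S_SB1i : S_SB1i := by
  intro hR hCYC hLIM hCO hSOL hMIX k _ _ _ ι α _ _ F d m X Y hF hmd hXY hM hcard p hp hpY hFp K _ _ c0 hlines
    E _ _ P htr hP hFP
  classical
  have hcharK : CharZero K := charZero_of_injective_algebraMap (algebraMap k K).injective
  by_cases hc0 : cyc K P = 0
  · rw [hc0]; exact zero_mem _
  obtain ⟨-, -, hC3, hC4, -, hC6, hC7, -⟩ := hCYC K ι E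
  have hess := (hC4 P hc0).1
  let _ : Algebra k E := ((algebraMap K E).comp (algebraMap k K)).toAlgebra
  have : IsScalarTower k K E := IsScalarTower.of_algebraMap_eq fun _ => rfl
  obtain ⟨H, hH⟩ : ∃ H : α → MvPolynomial ι K, H = fun a => map (algebraMap k K) (F a) := ⟨_, rfl⟩
  have hHhom : ∀ a, (H a).IsHomogeneous (d a) := fun a => by rw [hH]; exact (hF a).map _
  have hHmix : ∀ a, Mix (H a) X Y (m a) := fun a => by rw [hH]; exact mix_map (hM a)
  rw [← hH]
  have hlines' : ∀ (κ : Type) [Field κ] [Algebra K κ], Algebra.trdeg K κ = 0 →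
      ∀ z B : ι → κ, Supp X z → LinearIndependent κ ![z, B] → (∀ a, Vanish (H a) z B) →
      cyc K (gen z B) ∈ Mult (RatS K 1 H) c0 := by
    rw [hH]; exact hlines
  have hFP' : ∀ a, aeval P (H a) = 0 := by rw [hH]; exact hFP
  -- the direction
  obtain ⟨E2, _, _, _, hst, z2, hfin, hz2, hsz2, hzco⟩ := hSOL k E ι ((Σ a : α, Fin (d a)) ⊕ (Σ a : α, Fin (m a)))
    (Sum.elim (fun b => F b.1) (fun b => F b.1)) (Sum.elim (fun b => d b.1) (fun b => d b.1))
    (by rintro (b | b) <;> exact hF b.1)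
    (Sum.elim (fun _ => P) (fun _ => fun i => algebraMap k E (p i)))
    (Sum.elim (fun b => (b.2 : ℕ) + 1) (fun b => (b.2 : ℕ) + 1))
    (by
      rintro (b | b)
      · exact ⟨Nat.succ_pos _, b.2.2⟩
      · exact ⟨Nat.succ_pos _, (b.2.2.trans (hmd b.1))⟩) X (by
      rw [Fintype.card_sum, Fintype.card_sigma, Fintype.card_sigma]
      simp only [Fintype.card_fin]
      rw [← Finset.sum_add_distrib]
      omega)
  let _ : Algebra K E2 := ((algebraMap E E2).comp (algebraMap K E)).toAlgebra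
  have : IsScalarTower K E E2 := IsScalarTower.of_algebraMap_eq fun _ => rfl
  have : IsScalarTower k K E2 := IsScalarTower.of_algebraMap_eq fun x => by
    rw [IsScalarTower.algebraMap_apply K E E2, ← IsScalarTower.algebraMap_apply k K E,
      ← IsScalarTower.algebraMap_apply k E E2]
  have hFG : IsFG 1 K E2 := by
    constructor
    · exact Algebra.EssFiniteType.comp K E E2
    · have h2 : Algebra.trdeg K E + Algebra.trdeg E E2 = Algebra.trdeg K E2 := trdeg_add_eq K E
      have h3 : Algebra.IsAlgebraic E E2 := inferInstance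
      rw [← h2, htr, trdeg_eq_zero, add_zero]
  obtain ⟨P2, hP2⟩ : ∃ P2 : ι → E2, P2 = fun i => algebraMap E E2 (P i) := ⟨_, rfl⟩
  obtain ⟨Y2, hY2⟩ : ∃ Y2 : ι → E2, Y2 = fun i => algebraMap K E2 (algebraMap k K (p i)) := ⟨_, rfl⟩
  have hcoH : ∀ (a : α) (U W : ι → E2) (j : ℕ), co (H a) U W j = co (F a) U W j := by
    intro a U W j
    rw [hH]
    exact (hCO k ι (F a) (d a) (hF a)).2.2.2.2.2.1 E2 K U W j
  have hco1 : ∀ a j, 0 < j → j ≤ d a → co (H a) P2 z2 j = 0 := by
    intro a j hj0 hj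
    rw [hcoH]
    have h1 := hzco (Sum.inl ⟨a, ⟨j - 1, by omega⟩⟩)
    simp only [Sum.elim_inl] at h1
    have h2 : j - 1 + 1 = j := by omega
    rw [h2] at h1
    rw [hP2]
    exact h1
  have hco2 : ∀ a j, 0 < j → j ≤ m a → co (H a) Y2 z2 j = 0 := by
    intro a j hj0 hj
    rw [hcoH]
    have h1 := hzco (Sum.inr ⟨a, ⟨j - 1, by omega⟩⟩)
    simp only [Sum.elim_inr] at h1
    have h2 : j - 1 + 1 = j := by omega
    rw [h2] at h1
    have h3 : Y2 = fun i => algebraMap E E2 (algebraMap k E (p i)) := by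
      rw [hY2]
      funext i
      rw [← IsScalarTower.algebraMap_apply k K E2, ← IsScalarTower.algebraMap_apply k E E2]
    rw [h3]
    exact h1
  have hP2H : ∀ a, aeval P2 (H a) = 0 := by
    intro a
    have h1 : aeval P2 (H a) = algebraMap E E2 (aeval P (H a)) := by
      rw [hP2]
      exact (comp_aeval_apply _ (IsScalarTower.toAlgHom K E E2) (H a)).symm
    rw [h1, hFP', map_zero]
  have hY2H : ∀ a, aeval Y2 (H a) = 0 := by
    intro a
    have h1 : aeval Y2 (H a) = algebraMap k E2 (eval p (F a)) := by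
      have h3 : Y2 = fun i => algebraMap k E2 (p i) := by
        rw [hY2]
        funext i
        rw [← IsScalarTower.algebraMap_apply k K E2]
      rw [hH, h3, aeval_map_algebraMap, ← MvPolynomial.coe_aeval_eq_eval]
      exact (comp_aeval_apply _ (IsScalarTower.toAlgHom k k E2) (F a)).symm
    rw [h1, hFp, map_zero]
  have hsY2 : Supp Y Y2 := by
    intro i hi
    rw [hY2]
    simp only
    rw [hpY i hi, map_zero, map_zero]
  have hY2ne : Y2 ≠ 0 := by
    intro h
    apply hp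
    funext i
    have h1 := congrFun h i
    rw [hY2] at h1
    simpa using h1
  have hdpos : ∀ a, 0 < d a := fun a => (Nat.zero_le _).trans_lt (hmd a)
  -- the two families of lines
  have hV1 : ∀ a, Vanish (H a) P2 z2 := by
    intro a
    rw [(hCO K ι (H a) (d a) (hHhom a)).2.1]
    intro j hj
    rcases Nat.eq_zero_or_pos j with rfl | hj0
    · rw [((hCO K ι (H a) (d a) (hHhom a)).2.2.1 E2 _ _).1]
      exact hP2H a
    · exact hco1 a j hj0 hj
  have hV2 : ∀ a, Vanish (H a) z2 Y2 := by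
    intro a
    apply Vanish.symm
    refine vanish_of_co hCO hMIX (hHhom a) hXY (hHmix a) hsY2 hsz2 (hY2H a) (hco2 a) ?_
    rw [((hCO K ι (H a) (d a) (hHhom a)).2.2.1 E2 _ _).2, ← ((hCO K ι (H a) (d a) (hHhom a)).2.2.1 E2 P2 _).2]
    exact hco1 a (d a) (hdpos a) le_rfl
  have hli2 : LinearIndependent E2 ![z2, Y2] := li_of_supp hXY hsz2 hsY2 hz2 hY2ne
  have htr0 : ∀ {c : Cardinal.{0}}, c + 1 = ((1 : ℕ) : Cardinal) → c = 0 := by
    intro c hc
    rw [Nat.cast_one] at hc
    by_contra hne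
    have h1 : (1 : Cardinal.{0}) ≤ c := Cardinal.one_le_iff_ne_zero.2 hne
    have h2 : (1 : Cardinal.{0}) + 1 ≤ c + 1 := add_le_add_left h1 1
    rw [hc] at h2
    have h3 : ((2 : ℕ) : Cardinal.{0}) ≤ ((1 : ℕ) : Cardinal.{0}) := by
      rw [Nat.cast_one]
      refine le_trans (le_of_eq ?_) h2
      norm_num
    rw [Nat.cast_le] at h3
    omega
  have hgood : ∀ {A B : ι → E2}, (∀ a, Vanish (H a) A B) → ∀ {t : Place K E2} {a b : ι → t.RF},
      IsLim t A B a b → Algebra.trdeg K t.RF + 1 = ((1 : ℕ) : Cardinal) →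
      (∃ c c' : E2, ∀ i, c * A i + c' * B i = z2 i) →
      cyc K (gen a b) ∈ Mult (RatS K 1 H) c0 := by
    intro A B hV t a b hlim htt hcc
    obtain ⟨c, c', hcc⟩ := hcc
    obtain ⟨z0, v, hz0, hs0, hm1, hm2, hli⟩ := lim_supp hlim hz2 hsz2 hcc
    have h1 := hlines' t.RF (htr0 htt) z0 v hs0 hli
      (fun a' => Pool.Agent.T2h62.J15.Vanish.span (lim_vanish hlim (hV a')) hm1 hm2)
    have h2 := (hCYC K ι t.RF).2.2.2.2.2.2.1 a b z0 v hlim.1 hli hm1 hm2
    rwa [h2] at h1
  -- the second family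
  obtain ⟨S2, n2, a2, b2, hlim2, hS2, hrat2⟩ := hR K ι E2 1 hFG α H z2 Y2 hli2 hV2
  have hc2 : ∑ t ∈ S2, n2 t • cyc K (gen (a2 t) (b2 t)) ∈ Mult (RatS K 1 H) c0 := by
    refine sum_mem fun t ht => zsmul_mem ?_ _
    refine hgood hV2 (hlim2 t) (hS2 t ht) ⟨1, 0, fun i => ?_⟩
    ring
  have hcY : cyc K Y2 = 0 := by
    have h1 := (hCYC K ι E2).2.2.2.2.2.1 (by rw [hFG.2, Nat.cast_one]; exact one_ne_zero)
      (fun i => algebraMap k K (p i))
    rw [hY2]
    exact h1
  have hcZ : cyc K z2 ∈ Mult (RatS K 1 H) c0 := by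
    have h1 := sub_mem (Mult.of_mem (c0 := c0) hrat2) hc2
    have h2 : cyc K z2 - cyc K Y2 + ∑ t ∈ S2, n2 t • cyc K (gen (a2 t) (b2 t)) -
        ∑ t ∈ S2, n2 t • cyc K (gen (a2 t) (b2 t)) = cyc K z2 := by rw [hcY]; abel
    rwa [h2] at h1
  -- it remains to compare `P` and `Z`
  have hcP : cyc K P2 = Module.finrank E E2 • cyc K P := by
    rw [hP2]
    exact hC3 E2 P
  suffices hmain : cyc K P2 ∈ Mult (RatS K 1 H) c0 by
    rw [hcP] at hmain
    exact Mult.of_nsmul Module.finrank_pos hmain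
  by_cases hli1 : LinearIndependent E2 ![P2, z2]
  · obtain ⟨S1, n1, a1, b1, hlim1, hS1, hrat1⟩ := hR K ι E2 1 hFG α H P2 z2 hli1 hV1
    have hc1 : ∑ t ∈ S1, n1 t • cyc K (gen (a1 t) (b1 t)) ∈ Mult (RatS K 1 H) c0 := by
      refine sum_mem fun t ht => zsmul_mem ?_ _
      refine hgood hV1 (hlim1 t) (hS1 t ht) ⟨0, 1, fun i => ?_⟩
      ring
    have h1 := add_mem (sub_mem (Mult.of_mem (c0 := c0) hrat1) hc1) hcZ
    have h2 : cyc K P2 - cyc K z2 + ∑ t ∈ S1, n1 t • cyc K (gen (a1 t) (b1 t)) -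
        ∑ t ∈ S1, n1 t • cyc K (gen (a1 t) (b1 t)) + cyc K z2 = cyc K P2 := by abel
    rwa [h2] at h1
  · have hP2ne : P2 ≠ 0 := by
      intro h0
      apply hP
      funext i
      have h1 := congrFun h0 i
      rw [hP2] at h1
      simpa using h1
    have hdep : ∃ r : E2, r ≠ 0 ∧ P2 = fun i => r * z2 i := by
      rw [li_iff] at hli1
      push Not at hli1
      obtain ⟨α, β, h0, hne⟩ := hli1
      have hα : α ≠ 0 := by
        rintro rfl
        rw [zero_smul, zero_add] at h0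
        exact (smul_eq_zero.1 h0).elim (fun h => hne rfl h) hz2
      have hβ : β ≠ 0 := by
        rintro rfl
        rw [zero_smul, add_zero] at h0
        exact (smul_eq_zero.1 h0).elim hα hP2ne
      refine ⟨-(β / α), neg_ne_zero.2 (div_ne_zero hβ hα), ?_⟩
      funext i
      have h1 := congrFun h0 i
      simp only [Pi.add_apply, Pi.smul_apply, smul_eq_mul, Pi.zero_apply] at h1
      field_simp
      linear_combination h1
    obtain ⟨r, hr, hPZ⟩ := hdep
    rw [hPZ, (hCYC K ι E2).1 z2 r hr]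
    exact hcZ

end Pool.Agent.T2h59.Z15
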