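import Pool.Agent.T2h59.Z15.Lin
import Pool.Agent.Z15.W.Stm

/-!
# The lines through `p` with direction in a coordinate subspace (helper59)
-/

set_option autoImplicit false
set_option linter.all false

open FF MvPolynomial Pool.Agent.Z15.H Pool.Agent.Z15.J Pool.Agent.Z15.J.Stm

namespace Pool.Agent.T2h59.Z15

open Pool.Agent.Z15.S Pool.Agent.Z15.W

theorem algebra_eq {K κ : Type} [Field K] [Field κ] (i1 i2 : Algebra K κ)
    (h : @IsScalarTower K K κ _ i1.toSMul i2.toSMul) : i1 = i2 := by
  apply Algebra.algebra_ext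
  intro r
  have h1 := @IsScalarTower.smul_assoc K K κ _ i1.toSMul i2.toSMul h r 1 1
  rw [smul_eq_mul, mul_one] at h1
  have h2 : @HSMul.hSMul K κ κ (@instHSMul K κ i1.toSMul) (1 : K) (1 : κ) = 1 := @one_smul K κ _ (i1.toModule).toDistribMulAction.toMulAction 1
  rw [h2] at h1
  rw [@Algebra.algebraMap_eq_smul_one K κ _ _ i1, @Algebra.algebraMap_eq_smul_one K κ _ _ i2]
  exact h1

theorem t_W_GOODSi : W_GOODSi := by
  intro hCO hMIX K _ _ ι α _ _ F d m S Y hF hmd hSY hM p hp0 hp hpF
  classical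
  have hφ : phiS K S = fun n : {i // i ∈ S} => (Pi.single (n : ι) (1 : K) : ι → K) := by
    unfold phiS
    funext n i
    simp only [Pi.single_apply]
  have hne : ∀ (κ' : Type) [Field κ'] [Algebra K κ'], (cst κ' p : ι → κ') ≠ 0 := by
    intro κ' _ _ h
    apply hp0
    funext i
    exact (map_eq_zero (algebraMap K κ')).1 (congrFun h i)
  have hsu : ∀ (κ' : Type) [Field κ'] [Algebra K κ'], Supp Y (cst κ' p : ι → κ') := by
    intro κ' _ _ i hi
    show algebraMap K κ' (p i) = 0
    rw [hp i hi, map_zero]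
  have hval : ∀ (κ : Type) [Field κ] [Algebra K κ] (e : {i // i ∈ S} → κ)
      (x : Σ a, Fin (m a + 1)), aeval e (HS F d m S p x) =
        co (F x.1) (cst κ p) (lm (phiS K S) e) (if (x.2 : ℕ) = 0 then d x.1 else x.2) := by
    intro κ _ _ e x
    exact hf_eval (F x.1) p (phiS K S) (if (x.2 : ℕ) = 0 then d x.1 else x.2) κ e
  have hiff : ∀ (κ : Type) [Field κ] [Algebra K κ] (e : {i // i ∈ S} → κ),
      (∀ x, aeval e (HS F d m S p x) = 0) ↔ ∀ a, Vanish (F a) (cst κ p) (lm (phiS K S) e) := by
    intro κ _ _ e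
    have hw : Supp S (lm (phiS K S) e) := by rw [hφ]; exact lm_supp S e
    constructor
    · intro he a
      refine vanish_of_co hCO hMIX (hF a) hSY (hM a) (hsu κ) hw ?_ ?_ ?_
      · have h1 : aeval (cst κ p : ι → κ) (F a) = algebraMap K κ (aeval p (F a)) :=
          (comp_aeval_apply _ (IsScalarTower.toAlgHom K K κ) (F a)).symm
        have h2 : aeval p (F a) = eval p (F a) := by rw [← MvPolynomial.coe_aeval_eq_eval]; rfl
        rw [h1, h2, hpF, map_zero]
      · intro j hj0 hjm
        have h1 := he ⟨a, ⟨j, by omega⟩⟩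
        rw [hval κ] at h1
        simp only at h1
        rw [if_neg (by omega)] at h1
        exact h1
      · have h1 := he ⟨a, ⟨0, by omega⟩⟩
        rw [hval κ] at h1
        simp only at h1
        rw [if_pos trivial] at h1
        exact h1
    · intro hV x
      rw [hval κ]
      refine ((hCO K ι (F x.1) (d x.1) (hF x.1)).2.1 κ _ _).1 (hV x.1) _ ?_
      split_ifs with h
      · exact le_rfl
      · have := x.2.2
        have := hmd x.1
        omega
  have hres : ∀ (κ : Type) [Field κ] [Algebra K κ] (w : ι → κ), Supp S w →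
      lm (phiS K S) (fun i => w i.1) = w := by
    intro κ _ _ w hw
    rw [hφ]
    exact lm_restrict (K1 := K) S hw
  refine ⟨⟨?_, ?_⟩, hres, ?_⟩
  · intro κ _ _ e he _
    apply li_symm
    refine li_of_supp hSY ?_ (hsu κ) ?_ (hne κ)
    · rw [hφ]; exact lm_supp S e
    · rw [hφ]; exact lm_ne S he
  · intro κ _ i1 i0 hst e he a
    have h01 : i1 = i0 := algebra_eq i1 i0 hst
    subst h01
    exact (hiff κ e).1 he a
  · intro κ _ _ w hw
    rw [hiff κ (fun i => w i.1), hres κ w hw]

end Pool.Agent.T2h59.Z15
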