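import Pool.Agent.Z15.S.Stm
import Pool.Agent.T2h69.H15.Exp

/-!
# Common zeros over finite extensions; solution of systems for the coefficients (helper59)
-/

set_option autoImplicit false
set_option linter.all false

open FF MvPolynomial Pool.Agent.Z15.H Pool.Agent.Z15.J Pool.Agent.Z15.J.Stm

namespace Pool.Agent.T2h59.Z15

open Pool.Agent.Z15.S

theorem t_S_ZERO : S_ZERO := by
  intro E _ _ ν B _ _ H j hj hH hcard
  obtain ⟨c, hc0, hc⟩ := Pool.Agent.T2h69.H15.common_zero' (L := AlgebraicClosure E) hcard
    (fun b => map (algebraMap E (AlgebraicClosure E)) (H b)) j hj (fun b => (hH b).map _)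
  set E' := IntermediateField.adjoin E (Set.range c) with hE'
  have hfin : FiniteDimensional E E' := IntermediateField.finiteDimensional_adjoin
    (fun x _ => (AlgebraicClosure.isAlgebraic E).isIntegral.isIntegral x)
  have hmem : ∀ i, c i ∈ E' := fun i => IntermediateField.subset_adjoin _ _ ⟨i, rfl⟩
  refine ⟨E', inferInstance, inferInstance, fun i => ⟨c i, hmem i⟩, hfin, ?_, ?_⟩
  · intro h
    apply hc0
    funext i
    exact congrArg (algebraMap E' (AlgebraicClosure E)) (congrFun h i)
  · intro b
    apply (algebraMap E' (AlgebraicClosure E)).injective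
    rw [map_zero, ← hc b, eval_map, ← aeval_def, ← aeval_algebraMap_apply]
    rfl

theorem t_S_SOLVEi : S_SOLVEi := by
  intro hCO hZ k E _ _ _ _ ι B _ _ F d hF P j hj S hcard
  classical
  have hchar : CharZero E := charZero_of_injective_algebraMap (algebraMap k E).injective
  have h7 : ∀ b, ∃ H : MvPolynomial {i // i ∈ S} E, H.IsHomogeneous (j b) ∧
        ∀ (A : Type) [CommRing A] [Algebra E A] [Algebra k A] [IsScalarTower k E A] (e : {i // i ∈ S} → A),
          aeval e H = co (F b) (fun i => algebraMap E A (P b i))
            (fun i => ∑ n, e n * algebraMap E A ((Pi.single (n : ι) (1 : E) : ι → E) i)) (j b) := by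
    intro b
    exact (hCO k ι (F b) (d b) (hF b)).2.2.2.2.2.2 E {i // i ∈ S} (P b)
      (fun n => Pi.single (n : ι) 1) (j b)
  choose H hH1 hH2 using h7
  obtain ⟨E', _, _, e, hfin, he0, he⟩ := hZ E {i // i ∈ S} B H j (fun b => (hj b).1) hH1
    (by simpa using hcard)
  let i1 : Algebra k E' := ((algebraMap E E').comp (algebraMap k E)).toAlgebra
  have s1 : IsScalarTower k E E' := IsScalarTower.of_algebraMap_eq fun _ => rfl
  refine ⟨E', inferInstance, inferInstance, i1, s1, fun i => if h : i ∈ S then e ⟨i, h⟩ else 0,
    hfin, ?_, ?_, ?_⟩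
  · intro h
    apply he0
    funext i
    have := congrFun h i
    simpa using this
  · intro i hi
    simp [hi]
  · intro b
    refine Eq.trans ?_ (he b)
    rw [hH2 b E' e]
    congr 1
    funext i
    by_cases h : i ∈ S
    · rw [dif_pos h, Finset.sum_eq_single (⟨i, h⟩ : {i // i ∈ S})]
      · simp
      · intro n _ hn
        have : i ≠ (n : ι) := fun hh => hn (Subtype.ext hh.symm)
        simp [Pi.single_apply, this]
      · intro hh
        exact absurd (Finset.mem_univ _) hh
    · rw [dif_neg h]
      symm
      apply Finset.sum_eq_zero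
      intro n _
      have : i ≠ (n : ι) := fun hh => h (hh ▸ n.2)
      simp [Pi.single_apply, this]

end Pool.Agent.T2h59.Z15
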